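import Pool.Agent.D0H13.CA.Map
import Pool.Agent.R772.TT6

/-!
# Families of fields and of points indexed by contractible spaces (helper13)
-/

set_option autoImplicit false

open Set Filter Topology Metric

namespace Pool.Agent.D0H13.CA

open Pool.Agent.W689.Ch Pool.Agent.TH845.Mk Pool.Agent.Y150.Ch
open Pool.Agent.W689.Mk (lin hol_add hol_sub hol_inv_apply hol_apply_inv lin_inv_apply lin_mul
  lin_smul lin_neg hol_cont)
open Pool.Agent.R772.TT (tr ev loc_full)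

section
variable {X Γ E : Type} [TopologicalSpace X] [T2Space X] [Group Γ] [MulAction Γ X]
  [NormedAddCommGroup E] [NormedSpace ℝ E] [FiniteDimensional ℝ E]
  {dev : X → E} {hol : Γ →* (E ≃ᵃ[ℝ] E)}

/-- locally constant families of sets of fields -/
theorem nset_full (D : AffMfd X Γ E dev hol)
    (hno : ¬ ∃ Z : X → E, Continuous Z ∧ (∀ (γ : Γ) x, Z (γ • x) = lin hol γ (Z x)) ∧
      ∀ x, Z x ≠ 0) {Φ : X → Set (X → E)} (hne : ∀ x, (Φ x).Nonempty)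
    (hc : ∀ x, ∀ Y ∈ Φ x, Continuous Y)
    (hi : ∀ (γ : Γ) x, ∀ Y ∈ Φ (γ • x), tr hol γ Y ∈ Φ x)
    (hl : ∀ x, ∀ Y ∈ Φ x, ∀ᶠ x' in 𝓝 x, Y ∈ Φ x') :
    ∃ x : X, (0 : E) ∈ convexHull ℝ {u | ∃ Y ∈ Φ x, u = Y x} := by
  by_contra hcon
  push Not at hcon
  refine hno (loc_full D (Q := fun x => convexHull ℝ (Φ x)) ?_ ?_ ?_ ?_ ?_ ?_)
  · intro x
    obtain ⟨Y, hY⟩ := hne x
    exact ⟨Y, subset_convexHull ℝ _ hY⟩
  · exact fun x => convex_convexHull ℝ _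
  · intro x
    have h : convexHull ℝ (Φ x) ⊆ {Y | Continuous Y} := by
      refine convexHull_min (fun Y hY => hc x Y hY) ?_
      intro Y hY Z hZ a b _ _ _
      exact (hY.const_smul a).add (hZ.const_smul b)
    exact h
  · intro γ x
    have h : convexHull ℝ (Φ (γ • x)) ⊆ (tr hol γ) ⁻¹' (convexHull ℝ (Φ x)) :=
      convexHull_min (fun Y hY => subset_convexHull ℝ _ (hi γ x Y hY))
        ((convex_convexHull ℝ _).linear_preimage _)
    exact h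
  · intro x
    have h : convexHull ℝ (Φ x) ⊆ {Y | ∀ᶠ x' in 𝓝 x, Y ∈ convexHull ℝ (Φ x')} := by
      refine convexHull_min ?_ ?_
      · intro Y hY
        show ∀ᶠ x' in 𝓝 x, Y ∈ convexHull ℝ (Φ x')
        filter_upwards [hl x Y hY] with x' hx'
        exact subset_convexHull ℝ _ hx'
      · intro Y hY Z hZ a b ha' hb hab
        have hY' : ∀ᶠ x' in 𝓝 x, Y ∈ convexHull ℝ (Φ x') := hY
        have hZ' : ∀ᶠ x' in 𝓝 x, Z ∈ convexHull ℝ (Φ x') := hZ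
        show ∀ᶠ x' in 𝓝 x, a • Y + b • Z ∈ convexHull ℝ (Φ x')
        filter_upwards [hY', hZ'] with x' h1 h2
        exact (convex_convexHull ℝ _) h1 h2 ha' hb hab
    exact h
  · intro x Y hY h0
    refine hcon x ?_
    rw [← h0]
    have h : convexHull ℝ (Φ x) ⊆ (ev E x) ⁻¹' (convexHull ℝ {u | ∃ Y ∈ Φ x, u = Y x}) :=
      convexHull_min (fun Z hZ => subset_convexHull ℝ _ ⟨Z, hZ, rfl⟩)
        ((convex_convexHull ℝ _).linear_preimage _)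
    exact h hY

variable {H : AffineSubspace ℝ E} {x₀ : X}

/-- the map on the part developed into `H` -/
theorem map_gen (D : AffMfd X Γ E dev hol) (hfree : ∀ (γ : Γ) (x : X), γ • x = x → γ = 1)
    {K : Subgroup Γ} (hK : K.FiniteIndex)
    (hx : dev x₀ ∈ H) (hinvK : ∀ γ ∈ K, ∀ q ∈ H, hol γ q ∈ H)
    {T : Type} [TopologicalSpace T] [MulAction K T] {Y : ℕ → Set T} (hY : Tower K Y) :
    ∃ (f : {x : X // dev x ∈ H} → T) (n : ℕ), Continuous f ∧ (∀ x, f x ∈ Y n) ∧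
      ∀ (γ : K) (x : {x : X // dev x ∈ H}) (h : dev (γ.1 • x.1) ∈ H),
        f ⟨γ.1 • x.1, h⟩ = γ • f x := by
  have hinvH : ∀ (γ : K), ∀ q ∈ H, (hol.comp K.subtype) γ q ∈ H :=
    fun γ q hq => hinvK γ.1 γ.2 q hq
  let _ := subAct (restr D K hK) hinvH
  have D' := subMfd (restr D K hK) hx hinvH
  obtain ⟨f, n, h1, h2, h3⟩ := exists_map D' (fun γ x h => by
    have h4 : γ.1 • x.1 = x.1 := congrArg Subtype.val h
    exact Subtype.ext (hfree _ _ h4)) hY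
  exact ⟨f, n, h1, h2, fun γ x h => h3 γ x⟩

/-- **Locally constant sets of fields.** -/
theorem fields_gen (D : AffMfd X Γ E dev hol) (hfree : ∀ (γ : Γ) (x : X), γ • x = x → γ = 1)
    {K : Subgroup Γ} (hK : K.FiniteIndex)
    (hx : dev x₀ ∈ H) (hinvK : ∀ γ ∈ K, ∀ q ∈ H, hol γ q ∈ H)
    (hfld : ¬ Fld dev (hol.comp K.subtype) H)
    {T : Type} [TopologicalSpace T] [MulAction K T] {Y : ℕ → Set T} (hY : Tower K Y)
    {Φ : T → X → Set (X → E)}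
    (hne : ∀ n, ∀ y ∈ Y n, ∀ x, dev x ∈ H → (Φ y x).Nonempty)
    (hc : ∀ n, ∀ y ∈ Y n, ∀ x, dev x ∈ H → ∀ Z ∈ Φ y x, ContinuousOn Z {x | dev x ∈ H})
    (hV : ∀ n, ∀ y ∈ Y n, ∀ x, dev x ∈ H → ∀ Z ∈ Φ y x, ∀ x', dev x' ∈ H → Z x' ∈ H.direction)
    (hl : ∀ n, ∀ y ∈ Y n, ∀ x, dev x ∈ H → ∀ Z ∈ Φ y x,
      ∀ᶠ p in 𝓝[Y n ×ˢ {x | dev x ∈ H}] (y, x), Z ∈ Φ p.1 p.2)
    (hinv : ∀ (γ : K) n, ∀ y ∈ Y n, ∀ x, dev x ∈ H → ∀ Z ∈ Φ y x,
      ∃ Z' ∈ Φ (γ • y) (γ.1 • x), ∀ x', dev x' ∈ H → lin hol γ.1 (Z x') = Z' (γ.1 • x')) :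
    ∃ x, dev x ∈ H ∧ ∃ n, ∃ y ∈ Y n, (0 : E) ∈ convexHull ℝ {u | ∃ Z ∈ Φ y x, u = Z x} := by
  have hinvH : ∀ (γ : K), ∀ q ∈ H, (hol.comp K.subtype) γ q ∈ H :=
    fun γ q hq => hinvK γ.1 γ.2 q hq
  let _ := subAct (restr D K hK) hinvH
  have D' := subMfd (restr D K hK) hx hinvH
  obtain ⟨f, n, hf1, hf2, hf3⟩ := exists_map D' (fun γ x h => by
    have h4 : γ.1 • x.1 = x.1 := congrArg Subtype.val h
    exact Subtype.ext (hfree _ _ h4)) hY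
  have key := nset_full D' (fun h => hfld (fld_of_sub (restr D K hK) hx hinvH h))
    (Φ := fun x => {F' | ∃ F ∈ Φ (f x) x.1, ∀ x' : {x : X // dev x ∈ H}, (F' x' : E) = F x'.1})
    ?_ ?_ ?_ ?_
  · obtain ⟨x, h0⟩ := key
    refine ⟨x.1, x.2, n, f x, hf2 x, ?_⟩
    have h : convexHull ℝ {u : H.direction | ∃ F ∈
        {F' : {x : X // dev x ∈ H} → H.direction | ∃ F ∈ Φ (f x) x.1,
          ∀ x' : {x : X // dev x ∈ H}, (F' x' : E) = F x'.1}, u = F x}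
        ⊆ H.direction.subtype ⁻¹' (convexHull ℝ {u | ∃ Z ∈ Φ (f x) x.1, u = Z x.1}) := by
      refine convexHull_min ?_ ((convex_convexHull ℝ _).linear_preimage _)
      rintro _ ⟨F', ⟨F, hF, h1⟩, rfl⟩
      exact subset_convexHull ℝ _ ⟨F, hF, h1 x⟩
    have h2 := h h0
    have h3 : H.direction.subtype 0 ∈ convexHull ℝ {u | ∃ Z ∈ Φ (f x) x.1, u = Z x.1} := h2
    rwa [map_zero] at h3
  · intro x
    obtain ⟨F, hF⟩ := hne n (f x) (hf2 x) x.1 x.2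
    exact ⟨fun x' => ⟨F x'.1, hV n _ (hf2 x) _ x.2 F hF x'.1 x'.2⟩, F, hF, fun x => rfl⟩
  · rintro x F' ⟨F, hF, h1⟩
    have h2 : F' = fun x' => ⟨F x'.1, hV n _ (hf2 x) _ x.2 F hF x'.1 x'.2⟩ :=
      funext fun x' => Subtype.ext (h1 x')
    rw [h2]
    exact Continuous.subtype_mk (continuousOn_iff_continuous_domRestrict.1
      (hc n _ (hf2 x) _ x.2 F hF)) _
  · rintro γ x F' ⟨F, hF, h1⟩
    rw [hf3] at hF
    have hγx0 : dev (γ.1 • x.1) ∈ H := by rw [D.equi]; exact hinvK γ.1 γ.2 _ x.2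
    obtain ⟨F₂, hF₂, h2⟩ := hinv γ⁻¹ n (γ • f x) (hY.inv n γ _ (hf2 x)) (γ.1 • x.1) hγx0 F hF
    have h5 : (γ⁻¹ : K).1 = γ.1⁻¹ := rfl
    rw [inv_smul_smul, h5, inv_smul_smul] at hF₂
    refine ⟨F₂, hF₂, fun x' => ?_⟩
    have hγx : dev (γ.1 • x'.1) ∈ H := by rw [D.equi]; exact hinvK γ.1 γ.2 _ x'.2
    have h3 := h2 (γ.1 • x'.1) hγx
    rw [h5, inv_smul_smul] at h3
    have h4 : (F' (γ • x') : E) = F (γ.1 • x'.1) := h1 (γ • x')
    show lin hol γ.1⁻¹ (F' (γ • x') : E) = F₂ x'.1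
    rw [h4, h3]
  · rintro x F' ⟨F, hF, h1⟩
    have h2 := hl n (f x) (hf2 x) x.1 x.2 F hF
    have h3 : Tendsto (fun x' : {x : X // dev x ∈ H} => (f x', x'.1)) (𝓝 x)
        (𝓝[Y n ×ˢ {x | dev x ∈ H}] (f x, x.1)) := by
      refine tendsto_nhdsWithin_iff.2 ⟨?_, Eventually.of_forall fun x' => ⟨hf2 x', x'.2⟩⟩
      exact (hf1.prodMk continuous_subtype_val).continuousAt
    filter_upwards [h3.eventually h2] with x' hx'
    exact ⟨F, hx', h1⟩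

/-- **Locally constant sets of points.** -/
theorem points_gen (D : AffMfd X Γ E dev hol) (hfree : ∀ (γ : Γ) (x : X), γ • x = x → γ = 1)
    {K : Subgroup Γ} (hK : K.FiniteIndex)
    (hx : dev x₀ ∈ H) (hinvK : ∀ γ ∈ K, ∀ q ∈ H, hol γ q ∈ H)
    (hfld : ¬ Fld dev (hol.comp K.subtype) H)
    {T : Type} [TopologicalSpace T] [MulAction K T] {Y : ℕ → Set T} (hY : Tower K Y)
    {P : T → X → Set E} (hne : ∀ n, ∀ y ∈ Y n, ∀ x, dev x ∈ H → (P y x).Nonempty)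
    (hP : ∀ n, ∀ y ∈ Y n, ∀ x, dev x ∈ H → P y x ⊆ H)
    (hl : ∀ n, ∀ y ∈ Y n, ∀ x, dev x ∈ H → ∀ q ∈ P y x,
      ∀ᶠ p in 𝓝[Y n ×ˢ {x | dev x ∈ H}] (y, x), q ∈ P p.1 p.2)
    (hinv : ∀ (γ : K) n, ∀ y ∈ Y n, ∀ x, dev x ∈ H → ∀ q ∈ P y x,
      hol γ.1 q ∈ P (γ • y) (γ.1 • x)) :
    ∃ x, dev x ∈ H ∧ ∃ n, ∃ y ∈ Y n, dev x ∈ convexHull ℝ (P y x) := by
  have hdc : Continuous dev := D.loc.continuous
  have key := fields_gen D hfree hK hx hinvK hfld hY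
    (Φ := fun y x => {Z : X → E | ∃ q : E, q ∈ P y x ∧ Z = fun x => q - dev x}) ?_ ?_ ?_ ?_ ?_
  · obtain ⟨x, hxH, n, y, hy, h0⟩ := key
    refine ⟨x, hxH, n, y, hy, ?_⟩
    have h : convexHull ℝ {u : E | ∃ Z ∈ {Z : X → E | ∃ q : E, q ∈ P y x ∧
        Z = fun x => q - dev x}, u = Z x} ⊆ {u : E | u + dev x ∈ convexHull ℝ (P y x)} := by
      refine convexHull_min ?_ ?_
      · rintro _ ⟨Z, ⟨q, hq, rfl⟩, rfl⟩
        show q - dev x + dev x ∈ convexHull ℝ (P y x)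
        rw [sub_add_cancel]
        exact subset_convexHull ℝ _ hq
      · intro u hu w hw a b ha' hb hab
        have h1 : u + dev x ∈ convexHull ℝ (P y x) := hu
        have h2 : w + dev x ∈ convexHull ℝ (P y x) := hw
        have h3 := (convex_convexHull ℝ (P y x)) h1 h2 ha' hb hab
        show a • u + b • w + dev x ∈ convexHull ℝ (P y x)
        have e : a • u + b • w + dev x = a • (u + dev x) + b • (w + dev x) := by
          rw [smul_add, smul_add]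
          have : dev x = a • dev x + b • dev x := by rw [← add_smul, hab, one_smul]
          nth_rewrite 1 [this]
          abel
        rw [e]
        exact h3
    have h1 := h h0
    have h2 : (0 : E) + dev x ∈ convexHull ℝ (P y x) := h1
    rwa [zero_add] at h2
  · intro n y hy x hxH
    obtain ⟨q, hq⟩ := hne n y hy x hxH
    exact ⟨_, q, hq, rfl⟩
  · rintro n y _ x _ _ ⟨q, hq, rfl⟩
    exact (continuous_const.sub hdc).continuousOn
  · rintro n y hy x hxH _ ⟨q, hq, rfl⟩ x' hx'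
    exact sub_mem_dir hx' (hP n y hy x hxH hq)
  · rintro n y hy x hxH _ ⟨q, hq, rfl⟩
    filter_upwards [hl n y hy x hxH q hq] with p hp
    exact ⟨q, hp, rfl⟩
  · rintro γ n y hy x hxH _ ⟨q, hq, rfl⟩
    refine ⟨_, ⟨hol γ.1 q, hinv γ n y hy x hxH q hq, rfl⟩, fun x' _ => ?_⟩
    show lin hol γ.1 (q - dev x') = hol γ.1 q - dev (γ.1 • x')
    rw [D.equi, hol_sub]

/-- **Continuous families of fields.** -/
theorem family_gen (D : AffMfd X Γ E dev hol) (hfree : ∀ (γ : Γ) (x : X), γ • x = x → γ = 1)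
    {K : Subgroup Γ} (hK : K.FiniteIndex)
    (hx : dev x₀ ∈ H) (hinvK : ∀ γ ∈ K, ∀ q ∈ H, hol γ q ∈ H)
    (hfld : ¬ Fld dev (hol.comp K.subtype) H)
    {T : Type} [TopologicalSpace T] [MulAction K T] {Y : ℕ → Set T} (hY : Tower K Y)
    {S : T → X → E}
    (hc : ∀ n, ContinuousOn (fun p : T × X => S p.1 p.2) (Y n ×ˢ {x | dev x ∈ H}))
    (hV : ∀ n, ∀ y ∈ Y n, ∀ x, dev x ∈ H → S y x ∈ H.direction)
    (hinv : ∀ (γ : K) n, ∀ y ∈ Y n, ∀ x, dev x ∈ H →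
      lin hol γ.1 (S y x) = S (γ • y) (γ.1 • x)) :
    ∃ n, ∃ y ∈ Y n, ∃ x, dev x ∈ H ∧ S y x = 0 := by
  classical
  by_contra hcon
  push Not at hcon
  obtain ⟨f, n, hf1, hf2, hf3⟩ := map_gen D hfree hK hx hinvK hY
  apply hfld
  refine ⟨fun x => if h : dev x ∈ H then S (f ⟨x, h⟩) x else 0, ?_, ?_, ?_⟩
  · rw [continuousOn_iff_continuous_domRestrict]
    have h1 : Continuous fun x : {x : X // dev x ∈ H} => S (f x) x.1 := by
      have h2 : Continuous fun x : {x : X // dev x ∈ H} => (f x, x.1) :=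
        hf1.prodMk continuous_subtype_val
      exact (hc n).comp_continuous h2 fun x => ⟨hf2 x, x.2⟩
    refine Continuous.congr h1 fun x => ?_
    have hxH : dev x.1 ∈ H := x.2
    have e : (if h : dev x.1 ∈ H then S (f ⟨x.1, h⟩) x.1 else 0) = S (f ⟨x.1, hxH⟩) x.1 :=
      dif_pos hxH
    exact e.symm
  · intro x hxH
    have e : (if h : dev x ∈ H then S (f ⟨x, h⟩) x else 0) = S (f ⟨x, hxH⟩) x := dif_pos hxH
    show (if h : dev x ∈ H then S (f ⟨x, h⟩) x else 0) ∈ H.direction ∧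
      (if h : dev x ∈ H then S (f ⟨x, h⟩) x else 0) ≠ 0
    rw [e]
    exact ⟨hV n _ (hf2 _) x hxH, hcon n _ (hf2 _) x hxH⟩
  · intro γ x hxH
    have hγx : dev (γ.1 • x) ∈ H := by rw [D.equi]; exact hinvK γ.1 γ.2 _ hxH
    have e1 : (if h : dev x ∈ H then S (f ⟨x, h⟩) x else 0) = S (f ⟨x, hxH⟩) x := dif_pos hxH
    have e2 : (if h : dev (γ • x) ∈ H then S (f ⟨γ • x, h⟩) (γ • x) else 0)
        = S (f ⟨γ.1 • x, hγx⟩) (γ.1 • x) := dif_pos hγx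
    show (if h : dev (γ • x) ∈ H then S (f ⟨γ • x, h⟩) (γ • x) else 0)
      = lin hol γ.1 (if h : dev x ∈ H then S (f ⟨x, h⟩) x else 0)
    rw [e1, e2, hinv γ n _ (hf2 _) x hxH, hf3 γ ⟨x, hxH⟩ hγx]

end

end Pool.Agent.D0H13.CA
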