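import Pool.Agent.D0H13.CA.Gen

/-!
# Contractible sets, simplicial complexes and partially ordered sets (helper13)
-/

set_option autoImplicit false

open Set Filter Topology Metric

namespace Pool.Agent.D0H13.CA

open Pool.Agent.W689.Ch Pool.Agent.TH845.Mk Pool.Agent.Y150.Ch
open Pool.Agent.W689.Mk (lin hol_add hol_sub hol_inv_apply hol_apply_inv lin_inv_apply lin_mul
  lin_smul lin_neg hol_cont)

/-- `S` can be contracted inside itself -/
def Contr {T : Type} [TopologicalSpace T] (S : Set T) : Prop :=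
  ∃ (h : T × ℝ → T) (z : T), ContinuousOn h (S ×ˢ Icc 0 1) ∧ z ∈ S ∧
    (∀ y ∈ S, h (y, 0) = y ∧ h (y, 1) = z) ∧ ∀ y ∈ S, ∀ t ∈ Icc (0 : ℝ) 1, h (y, t) ∈ S

theorem contr_of {T : Type} [TopologicalSpace T] (S : Set T) [ContractibleSpace S] : Contr S := by
  classical
  obtain ⟨z, ⟨F⟩⟩ := id_nullhomotopic S
  have hval : ∀ y (hy : y ∈ S) (t : ℝ),
      (if hy : y ∈ S then (F (projIcc 0 1 zero_le_one t, ⟨y, hy⟩)).1 else y)
        = (F (projIcc 0 1 zero_le_one t, ⟨y, hy⟩)).1 := fun y hy t => dif_pos hy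
  refine ⟨fun p => if hy : p.1 ∈ S then (F (projIcc 0 1 zero_le_one p.2, ⟨p.1, hy⟩)).1 else p.1,
    z.1, ?_, z.2, ?_, ?_⟩
  · rw [continuousOn_iff_continuous_domRestrict]
    have h1 : Continuous fun p : (S ×ˢ Icc (0 : ℝ) 1 : Set (T × ℝ)) =>
        (F (projIcc 0 1 zero_le_one p.1.2, ⟨p.1.1, p.2.1⟩)).1 := by
      refine continuous_subtype_val.comp (F.continuous.comp ?_)
      refine Continuous.prodMk (continuous_projIcc.comp
        (continuous_snd.comp continuous_subtype_val)) ?_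
      exact Continuous.subtype_mk (continuous_fst.comp continuous_subtype_val) _
    refine Continuous.congr h1 fun p => ?_
    exact (hval p.1.1 p.2.1 p.1.2).symm
  · intro y hy
    refine ⟨?_, ?_⟩
    · show (if hy : y ∈ S then (F (projIcc 0 1 zero_le_one (0 : ℝ), ⟨y, hy⟩)).1 else y) = y
      rw [hval y hy 0, projIcc_left]
      have := F.apply_zero ⟨y, hy⟩
      exact congrArg Subtype.val this
    · show (if hy : y ∈ S then (F (projIcc 0 1 zero_le_one (1 : ℝ), ⟨y, hy⟩)).1 else y) = z.1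
      rw [hval y hy 1, projIcc_right]
      have := F.apply_one ⟨y, hy⟩
      exact congrArg Subtype.val this
  · intro y hy t _
    show (if hy : y ∈ S then (F (projIcc 0 1 zero_le_one t, ⟨y, hy⟩)).1 else y) ∈ S
    rw [hval y hy t]
    exact (F (projIcc 0 1 zero_le_one t, ⟨y, hy⟩)).2

theorem contr_univ (T : Type) [TopologicalSpace T] [ContractibleSpace T] :
    Contr (univ : Set T) := by
  obtain ⟨z, ⟨F⟩⟩ := id_nullhomotopic T
  refine ⟨fun p => F (projIcc 0 1 zero_le_one p.2, p.1), z, ?_, mem_univ _, ?_,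
    fun _ _ _ _ => mem_univ _⟩
  · refine (F.continuous.comp ?_).continuousOn
    exact Continuous.prodMk (continuous_projIcc.comp continuous_snd) continuous_fst
  · intro y _
    refine ⟨?_, ?_⟩
    · show F (projIcc 0 1 zero_le_one (0 : ℝ), y) = y
      rw [projIcc_left]
      exact F.apply_zero y
    · show F (projIcc 0 1 zero_le_one (1 : ℝ), y) = z
      rw [projIcc_right]
      exact F.apply_one y

theorem contr_pi {ι T : Type} [TopologicalSpace T] {S : ι → Set T} (h : ∀ i, Contr (S i)) :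
    Contr {w : ι → T | ∀ i, w i ∈ S i} := by
  choose k z h1 h2 h3 h4 using h
  refine ⟨fun p i => k i (p.1 i, p.2), z, ?_, h2, ?_, ?_⟩
  · rw [continuousOn_pi]
    intro i
    have h5 : ContinuousOn (fun p : (ι → T) × ℝ => (p.1 i, p.2))
        ({w : ι → T | ∀ i, w i ∈ S i} ×ˢ Icc 0 1) := by
      apply Continuous.continuousOn
      fun_prop
    exact (h1 i).comp h5 fun p hp => ⟨hp.1 i, hp.2⟩
  · intro y hy
    exact ⟨funext fun i => (h3 i _ (hy i)).1, funext fun i => (h3 i _ (hy i)).2⟩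
  · intro y hy t ht i
    exact h4 i _ (hy i) t ht

theorem Contr.tower {T Γ : Type} [TopologicalSpace T] [Group Γ] [MulAction Γ T] {S : Set T}
    (h : Contr S) (hinv : ∀ γ : Γ, ∀ y ∈ S, γ • y ∈ S)
    (hc : ∀ γ : Γ, ContinuousOn (fun y : T => γ • y) S) : Tower Γ (fun _ => S) := by
  refine ⟨?_, fun _ => hinv, fun _ => hc, fun _ => h⟩
  obtain ⟨_, z, -, hz, -⟩ := h
  exact ⟨z, hz⟩

section
variable {X Γ E : Type} [TopologicalSpace X] [T2Space X] [Group Γ] [MulAction Γ X]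
  [NormedAddCommGroup E] [NormedSpace ℝ E] [FiniteDimensional ℝ E]
  {dev : X → E} {hol : Γ →* (E ≃ᵃ[ℝ] E)}

/-- the action on the affine space -/
@[reducible] def actA (hol : Γ →* (E ≃ᵃ[ℝ] E)) (K : Subgroup Γ) : MulAction K E where
  smul γ q := hol γ.1 q
  one_smul q := by
    show hol 1 q = q
    rw [map_one]; rfl
  mul_smul γ δ q := by
    show hol (γ.1 * δ.1) q = hol γ.1 (hol δ.1 q)
    rw [map_mul]; rfl

/-- the linear action -/
@[reducible] def actL (hol : Γ →* (E ≃ᵃ[ℝ] E)) (K : Subgroup Γ) : MulAction K E where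
  smul γ q := lin hol γ.1 q
  one_smul q := by
    show lin hol 1 q = q
    have := hol_sub (hol := hol) 1 q 0
    rw [sub_zero] at this
    rw [← this, map_one]
    show q - 0 = q
    exact sub_zero q
  mul_smul γ δ q := lin_mul (hol := hol) γ.1 δ.1 q

variable {H : AffineSubspace ℝ E} {x₀ : X}

/-- weighted sums of points of contractible sets, first case -/
theorem sets_one (D : AffMfd X Γ E dev hol) (hfree : ∀ (γ : Γ) (x : X), γ • x = x → γ = 1)
    {K : Subgroup Γ} (hK : K.FiniteIndex)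
    (hx : dev x₀ ∈ H) (hinvK : ∀ γ ∈ K, ∀ q ∈ H, hol γ q ∈ H)
    (hfld : ¬ Fld dev (hol.comp K.subtype) H) {ι : Type} [Fintype ι] {S : ι → Set E}
    (hS : ∀ i, Contr (S i)) (hSH : ∀ i, S i ⊆ H)
    (hSi : ∀ i, ∀ γ ∈ K, ∀ q ∈ S i, hol γ q ∈ S i) {c : ι → ℝ} (hc : ∑ i, c i = 1) :
    ∃ y : ι → E, (∀ i, y i ∈ S i) ∧ ∃ x, dev x ∈ H ∧ ∑ i, c i • y i = dev x := by
  let _ := actA hol K
  have hdc : Continuous dev := D.loc.continuous
  have hT : Tower K (fun _ : ℕ => {w : ι → E | ∀ i, w i ∈ S i}) :=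
    (contr_pi hS).tower (fun γ y hy i => hSi i γ.1 γ.2 _ (hy i)) (fun γ => by
      apply Continuous.continuousOn
      exact continuous_pi fun i => (hol_cont γ.1).comp (continuous_apply i))
  have key := family_gen D hfree hK hx hinvK hfld hT
    (S := fun w x => ∑ i, c i • (w i - dev x)) ?_ ?_ ?_
  · obtain ⟨n, y, hy, x, hxH, h0⟩ := key
    refine ⟨y, hy, x, hxH, ?_⟩
    have e : ∑ i, c i • (y i - dev x) = ∑ i, c i • y i - dev x := by
      simp_rw [smul_sub]
      rw [Finset.sum_sub_distrib, ← Finset.sum_smul, hc, one_smul]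
    have h0' : ∑ i, c i • (y i - dev x) = 0 := h0
    rw [e] at h0'
    exact sub_eq_zero.1 h0'
  · intro n
    apply Continuous.continuousOn
    fun_prop
  · intro n w hw x hxH
    refine Submodule.sum_mem _ fun i _ => Submodule.smul_mem _ _ ?_
    exact sub_mem_dir hxH (hSH i (hw i))
  · intro γ n w hw x hxH
    show (hol γ.1).linear (∑ i, c i • (w i - dev x))
      = ∑ i, c i • (hol γ.1 (w i) - dev (γ.1 • x))
    rw [map_sum]
    refine Finset.sum_congr rfl fun i _ => ?_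
    rw [map_smul, D.equi, hol_sub]

/-- weighted sums of points of contractible sets, second case -/
theorem sets_zero (D : AffMfd X Γ E dev hol) (hfree : ∀ (γ : Γ) (x : X), γ • x = x → γ = 1)
    {K : Subgroup Γ} (hK : K.FiniteIndex)
    (hx : dev x₀ ∈ H) (hinvK : ∀ γ ∈ K, ∀ q ∈ H, hol γ q ∈ H)
    (hfld : ¬ Fld dev (hol.comp K.subtype) H) {ι : Type} [Fintype ι] {S : ι → Set E}
    (hS : ∀ i, Contr (S i)) (hSH : ∀ i, S i ⊆ H)
    (hSi : ∀ i, ∀ γ ∈ K, ∀ q ∈ S i, hol γ q ∈ S i) {c : ι → ℝ} (hc : ∑ i, c i = 0) :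
    ∃ y : ι → E, (∀ i, y i ∈ S i) ∧ ∑ i, c i • y i = 0 := by
  let _ := actA hol K
  have hdc : Continuous dev := D.loc.continuous
  have hT : Tower K (fun _ : ℕ => {w : ι → E | ∀ i, w i ∈ S i}) :=
    (contr_pi hS).tower (fun γ y hy i => hSi i γ.1 γ.2 _ (hy i)) (fun γ => by
      apply Continuous.continuousOn
      exact continuous_pi fun i => (hol_cont γ.1).comp (continuous_apply i))
  have key := family_gen D hfree hK hx hinvK hfld hT
    (S := fun w x => ∑ i, c i • (w i - dev x)) ?_ ?_ ?_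
  · obtain ⟨n, y, hy, x, hxH, h0⟩ := key
    refine ⟨y, hy, ?_⟩
    have e : ∑ i, c i • (y i - dev x) = ∑ i, c i • y i := by
      simp_rw [smul_sub]
      rw [Finset.sum_sub_distrib, ← Finset.sum_smul, hc, zero_smul, sub_zero]
    have h0' : ∑ i, c i • (y i - dev x) = 0 := h0
    rw [e] at h0'
    exact h0'
  · intro n
    apply Continuous.continuousOn
    fun_prop
  · intro n w hw x hxH
    refine Submodule.sum_mem _ fun i _ => Submodule.smul_mem _ _ ?_
    exact sub_mem_dir hxH (hSH i (hw i))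
  · intro γ n w hw x hxH
    show (hol γ.1).linear (∑ i, c i • (w i - dev x))
      = ∑ i, c i • (hol γ.1 (w i) - dev (γ.1 • x))
    rw [map_sum]
    refine Finset.sum_congr rfl fun i _ => ?_
    rw [map_smul, D.equi, hol_sub]

/-- contractible sets of vectors -/
theorem vectors (D : AffMfd X Γ E dev hol) (hfree : ∀ (γ : Γ) (x : X), γ • x = x → γ = 1)
    {K : Subgroup Γ} (hK : K.FiniteIndex)
    (hx : dev x₀ ∈ H) (hinvK : ∀ γ ∈ K, ∀ q ∈ H, hol γ q ∈ H)
    (hfld : ¬ Fld dev (hol.comp K.subtype) H) {S : Set E} (hS : Contr S)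
    (hSH : ∀ v ∈ S, v ∈ H.direction)
    (hSi : ∀ γ ∈ K, ∀ q ∈ S, lin hol γ q ∈ S) : (0 : E) ∈ S := by
  let _ := actL hol K
  have hlc : ∀ γ : K, Continuous fun v : E => lin hol γ.1 v := fun γ => by
    have e : (fun v : E => lin hol γ.1 v) = fun v => hol γ.1 v - hol γ.1 0 := by
      funext v
      rw [hol_sub, sub_zero]
    rw [e]
    exact (hol_cont γ.1).sub continuous_const
  have hT : Tower K (fun _ : ℕ => S) :=
    hS.tower (fun γ y hy => hSi γ.1 γ.2 _ hy) (fun γ => (hlc γ).continuousOn)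
  obtain ⟨n, y, hy, x, hxH, h0⟩ := family_gen D hfree hK hx hinvK hfld hT
    (S := fun w _ => w) (fun n => continuous_fst.continuousOn) (fun n w hw x _ => hSH w hw)
    (fun γ n w hw x _ => rfl)
  have h0' : y = 0 := h0
  rw [← h0']
  exact hy

/-- the points of the realization of a simplicial complex, in barycentric coordinates -/
def Rl {A : Type} (𝒦 : Set (Finset A)) : Set (A → ℝ) :=
  {w | (∀ a, 0 ≤ w a) ∧ ∃ s ∈ 𝒦, (∀ a, a ∉ s → w a = 0) ∧ ∑ a ∈ s, w a = 1}

/-- the action on the functions -/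
@[reducible] def actF (G : Type) [Group G] (A : Type) [MulAction G A] : MulAction G (A → ℝ) where
  smul γ w := fun a => w (γ⁻¹ • a)
  one_smul w := by
    funext a
    show w ((1 : G)⁻¹ • a) = w a
    rw [inv_one, one_smul]
  mul_smul γ δ w := by
    funext a
    show w ((γ * δ)⁻¹ • a) = w (δ⁻¹ • γ⁻¹ • a)
    rw [mul_inv_rev, mul_smul]

theorem tower_rl {G A : Type} [Group G] [MulAction G A] {𝒦 : Set (Finset A)}
    (hi : ∀ (γ : G), ∀ s ∈ 𝒦, s.map (MulAction.toPerm γ).toEmbedding ∈ 𝒦) (hC : Contr (Rl 𝒦)) :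
    let _ := actF G A
    Tower G (fun _ : ℕ => Rl 𝒦) := by
  let _ := actF G A
  refine hC.tower ?_ ?_
  · rintro γ w ⟨h0, s, hs, h1, h2⟩
    refine ⟨fun a => h0 _, _, hi γ s hs, ?_, ?_⟩
    · intro a ha
      show w (γ⁻¹ • a) = 0
      apply h1
      intro h3
      apply ha
      rw [Finset.mem_map]
      exact ⟨γ⁻¹ • a, h3, smul_inv_smul γ a⟩
    · rw [Finset.sum_map]
      show ∑ a ∈ s, w (γ⁻¹ • γ • a) = 1
      simp_rw [inv_smul_smul]
      exact h2
  · intro γ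
    apply Continuous.continuousOn
    exact continuous_pi fun a => continuous_apply (γ⁻¹ • a)

theorem rl_cover {A : Type} {𝒦 : Set (Finset A)} {w : A → ℝ} (hw : w ∈ Rl 𝒦) :
    ∃ a, 0 < w a := by
  obtain ⟨h0, s, hs, h1, h2⟩ := hw
  by_contra hcon
  push Not at hcon
  have h3 : ∀ a ∈ s, w a = 0 := fun a _ => le_antisymm (hcon a) (h0 a)
  rw [Finset.sum_eq_zero h3] at h2
  exact zero_ne_one h2

/-- **Fields indexed by the vertices of a contractible simplicial complex.** -/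
theorem complex_fields (D : AffMfd X Γ E dev hol)
    (hfree : ∀ (γ : Γ) (x : X), γ • x = x → γ = 1) {K : Subgroup Γ} (hK : K.FiniteIndex)
    (hx : dev x₀ ∈ H) (hinvK : ∀ γ ∈ K, ∀ q ∈ H, hol γ q ∈ H)
    (hfld : ¬ Fld dev (hol.comp K.subtype) H) {A : Type} [MulAction K A] {𝒦 : Set (Finset A)}
    (hi : ∀ (γ : K), ∀ s ∈ 𝒦, s.map (MulAction.toPerm γ).toEmbedding ∈ 𝒦) (hC : Contr (Rl 𝒦))
    {Q : A → Set (X → E)} (hne : ∀ v, (Q v).Nonempty)
    (hc : ∀ v, ∀ Y ∈ Q v, ContinuousOn Y {x | dev x ∈ H})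
    (hV : ∀ v, ∀ Y ∈ Q v, ∀ x, dev x ∈ H → Y x ∈ H.direction)
    (hinv : ∀ (γ : K) v, ∀ Y ∈ Q v, ∃ Y' ∈ Q (γ • v), ∀ x, dev x ∈ H →
      lin hol γ.1 (Y x) = Y' (γ.1 • x)) :
    ∃ x, dev x ∈ H ∧ ∃ s ∈ 𝒦, (0 : E) ∈ convexHull ℝ {u | ∃ v ∈ s, ∃ Z ∈ Q v, u = Z x} := by
  let _ := actF K A
  have key := fields_gen D hfree hK hx hinvK hfld (tower_rl hi hC)
    (Φ := fun w _ => {Z | ∃ a, 0 < w a ∧ Z ∈ Q a}) ?_ ?_ ?_ ?_ ?_
  · obtain ⟨x, hxH, n, w, ⟨h0, s, hs, h1, h2⟩, h⟩ := key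
    refine ⟨x, hxH, s, hs, convexHull_mono ?_ h⟩
    rintro u ⟨Z, ⟨v, hv, hZ⟩, rfl⟩
    refine ⟨v, ?_, Z, hZ, rfl⟩
    by_contra hvs
    rw [h1 v hvs] at hv
    exact lt_irrefl _ hv
  · intro n w hw x _
    obtain ⟨a, ha⟩ := rl_cover hw
    obtain ⟨Z, hZ⟩ := hne a
    exact ⟨Z, a, ha, hZ⟩
  · rintro n w _ x _ Z ⟨a, _, hZ⟩
    exact hc a Z hZ
  · rintro n w _ x _ Z ⟨a, _, hZ⟩
    exact hV a Z hZ
  · rintro n w _ x _ Z ⟨a, ha, hZ⟩
    have h1 : ContinuousAt (fun p : (A → ℝ) × X => p.1 a) (w, x) := by fun_prop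
    have h2 : ∀ᶠ p in 𝓝 (w, x), 0 < p.1 a := h1.eventually (lt_mem_nhds ha)
    filter_upwards [mem_nhdsWithin_of_mem_nhds h2] with p hp
    exact ⟨a, hp, hZ⟩
  · rintro γ n w _ x _ Z ⟨a, ha, hZ⟩
    obtain ⟨Z', hZ', h1⟩ := hinv γ a Z hZ
    refine ⟨Z', ⟨γ • a, ?_, hZ'⟩, h1⟩
    show 0 < w (γ⁻¹ • γ • a)
    rw [inv_smul_smul]
    exact ha

/-- **Points indexed by the vertices of a contractible simplicial complex.** -/
theorem complex_points (D : AffMfd X Γ E dev hol)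
    (hfree : ∀ (γ : Γ) (x : X), γ • x = x → γ = 1) {K : Subgroup Γ} (hK : K.FiniteIndex)
    (hx : dev x₀ ∈ H) (hinvK : ∀ γ ∈ K, ∀ q ∈ H, hol γ q ∈ H)
    (hfld : ¬ Fld dev (hol.comp K.subtype) H) {A : Type} [MulAction K A] {𝒦 : Set (Finset A)}
    (hi : ∀ (γ : K), ∀ s ∈ 𝒦, s.map (MulAction.toPerm γ).toEmbedding ∈ 𝒦) (hC : Contr (Rl 𝒦))
    {P : A → Set E} (hne : ∀ v, (P v).Nonempty)
    (hP : ∀ v, P v ⊆ H) (hinv : ∀ (γ : K) v, ∀ q ∈ P v, hol γ.1 q ∈ P (γ • v)) :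
    ∃ x, dev x ∈ H ∧ ∃ s ∈ 𝒦, dev x ∈ convexHull ℝ (⋃ v ∈ s, P v) := by
  let _ := actF K A
  have key := points_gen D hfree hK hx hinvK hfld (tower_rl hi hC)
    (P := fun w _ => {q | ∃ a, 0 < w a ∧ q ∈ P a}) ?_ ?_ ?_ ?_
  · obtain ⟨x, hxH, n, w, ⟨h0, s, hs, h1, h2⟩, h⟩ := key
    refine ⟨x, hxH, s, hs, convexHull_mono ?_ h⟩
    rintro q ⟨v, hv, hq⟩
    have hvs : v ∈ s := by
      by_contra hvs
      rw [h1 v hvs] at hv
      exact lt_irrefl _ hv
    exact mem_biUnion (show v ∈ (s : Set A) from hvs) hq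
  · intro n w hw x _
    obtain ⟨a, ha⟩ := rl_cover hw
    obtain ⟨q, hq⟩ := hne a
    exact ⟨q, a, ha, hq⟩
  · rintro n w _ x _ q ⟨a, _, hq⟩
    exact hP a hq
  · rintro n w _ x _ q ⟨a, ha, hq⟩
    have h1 : ContinuousAt (fun p : (A → ℝ) × X => p.1 a) (w, x) := by fun_prop
    have h2 : ∀ᶠ p in 𝓝 (w, x), 0 < p.1 a := h1.eventually (lt_mem_nhds ha)
    filter_upwards [mem_nhdsWithin_of_mem_nhds h2] with p hp
    exact ⟨a, hp, hq⟩
  · rintro γ n w _ x _ q ⟨a, ha, hq⟩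
    refine ⟨γ • a, ?_, hinv γ a q hq⟩
    show 0 < w (γ⁻¹ • γ • a)
    rw [inv_smul_smul]
    exact ha

/-- **Homogeneous spaces, points.** -/
theorem homog_point (D : AffMfd X Γ E dev hol)
    (hfree : ∀ (γ : Γ) (x : X), γ • x = x → γ = 1) {K : Subgroup Γ} (hK : K.FiniteIndex)
    (hx : dev x₀ ∈ H) (hinvK : ∀ γ ∈ K, ∀ q ∈ H, hol γ q ∈ H)
    (hfld : ¬ Fld dev (hol.comp K.subtype) H) {G : Type} [Group G] [TopologicalSpace G]
    [IsTopologicalGroup G] {L : Subgroup G} [ContractibleSpace (G ⧸ L)] (φ : K →* G)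
    (α : G →* (E ≃ᵃ[ℝ] E)) (hαc : Continuous fun p : G × E => α p.1 p.2)
    (hα : ∀ γ : K, α (φ γ) = hol γ.1) (hαH : ∀ g, ∀ q ∈ H, α g q ∈ H) {p : E} (hp : p ∈ H)
    (hL : ∀ g ∈ L, α g p = p) : ∃ g x, dev x ∈ H ∧ α g p = dev x := by
  have hdc : Continuous dev := D.loc.continuous
  let _ : MulAction K (G ⧸ L) := MulAction.compHom (G ⧸ L) φ
  have hrel : ∀ a b : G, QuotientGroup.leftRel L a b → α a p = α b p := by
    intro a b hab
    rw [QuotientGroup.leftRel_apply] at hab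
    have h1 := hL _ hab
    have h2 : α b p = α a (α (a⁻¹ * b) p) := by
      have e : b = a * (a⁻¹ * b) := by group
      conv_lhs => rw [e, map_mul]
      rfl
    rw [h2, h1]
  let o : G ⧸ L → E := fun y => Quotient.liftOn' y (fun g => α g p) hrel
  have ho : ∀ g : G, o (QuotientGroup.mk g) = α g p := fun g => rfl
  have hoc : Continuous o := Continuous.quotient_liftOn'
    (hαc.comp (Continuous.prodMk continuous_id continuous_const)) hrel
  have hT : Tower K (fun _ : ℕ => (univ : Set (G ⧸ L))) :=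
    (contr_univ (G ⧸ L)).tower (fun _ _ _ => mem_univ _) (fun γ => by
      apply Continuous.continuousOn
      exact continuous_const_smul (φ γ))
  obtain ⟨n, y, -, x, hxH, h0⟩ := family_gen D hfree hK hx hinvK hfld hT
    (S := fun y x => o y - dev x)
    (fun n => by
      apply Continuous.continuousOn
      exact (hoc.comp continuous_fst).sub (hdc.comp continuous_snd))
    (fun n y _ x hxH => by
      obtain ⟨g, rfl⟩ := QuotientGroup.mk_surjective y
      exact sub_mem_dir hxH (hαH g p hp))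
    (fun γ n y _ x hxH => by
      obtain ⟨g, rfl⟩ := QuotientGroup.mk_surjective y
      have e1 : o (γ • (QuotientGroup.mk g : G ⧸ L)) = hol γ.1 (α g p) := by
        have e2 : γ • (QuotientGroup.mk g : G ⧸ L) = QuotientGroup.mk (φ γ * g) := rfl
        rw [e2, ho, map_mul, hα]
        rfl
      show lin hol γ.1 (o (QuotientGroup.mk g) - dev x)
        = o (γ • (QuotientGroup.mk g : G ⧸ L)) - dev (γ.1 • x)
      rw [e1, ho, D.equi, hol_sub])
  obtain ⟨g, rfl⟩ := QuotientGroup.mk_surjective y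
  exact ⟨g, x, hxH, sub_eq_zero.1 h0⟩

/-- **Homogeneous spaces, vectors.** -/
theorem homog_vector (D : AffMfd X Γ E dev hol)
    (hfree : ∀ (γ : Γ) (x : X), γ • x = x → γ = 1) {K : Subgroup Γ} (hK : K.FiniteIndex)
    (hx : dev x₀ ∈ H) (hinvK : ∀ γ ∈ K, ∀ q ∈ H, hol γ q ∈ H)
    (hfld : ¬ Fld dev (hol.comp K.subtype) H) {G : Type} [Group G] [TopologicalSpace G]
    [IsTopologicalGroup G] {L : Subgroup G} [ContractibleSpace (G ⧸ L)] (φ : K →* G)
    (β : G →* (E ≃ₗ[ℝ] E)) (hβc : Continuous fun p : G × E => β p.1 p.2)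
    (hβ : ∀ (γ : K) (v : E), β (φ γ) v = lin hol γ.1 v)
    (hβH : ∀ g, ∀ v ∈ H.direction, β g v ∈ H.direction) {v : E} (hv : v ∈ H.direction)
    (hL : ∀ g ∈ L, β g v = v) : v = 0 := by
  let _ : MulAction K (G ⧸ L) := MulAction.compHom (G ⧸ L) φ
  have hrel : ∀ a b : G, QuotientGroup.leftRel L a b → β a v = β b v := by
    intro a b hab
    rw [QuotientGroup.leftRel_apply] at hab
    have h1 := hL _ hab
    have h2 : β b v = β a (β (a⁻¹ * b) v) := by
      have e : b = a * (a⁻¹ * b) := by group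
      conv_lhs => rw [e, map_mul]
      rfl
    rw [h2, h1]
  let o : G ⧸ L → E := fun y => Quotient.liftOn' y (fun g => β g v) hrel
  have ho : ∀ g : G, o (QuotientGroup.mk g) = β g v := fun g => rfl
  have hoc : Continuous o := Continuous.quotient_liftOn'
    (hβc.comp (Continuous.prodMk continuous_id continuous_const)) hrel
  have hT : Tower K (fun _ : ℕ => (univ : Set (G ⧸ L))) :=
    (contr_univ (G ⧸ L)).tower (fun _ _ _ => mem_univ _) (fun γ => by
      apply Continuous.continuousOn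
      exact continuous_const_smul (φ γ))
  obtain ⟨n, y, -, x, hxH, h0⟩ := family_gen D hfree hK hx hinvK hfld hT
    (S := fun y _ => o y)
    (fun n => by
      apply Continuous.continuousOn
      exact hoc.comp continuous_fst)
    (fun n y _ x hxH => by
      obtain ⟨g, rfl⟩ := QuotientGroup.mk_surjective y
      exact hβH g v hv)
    (fun γ n y _ x hxH => by
      obtain ⟨g, rfl⟩ := QuotientGroup.mk_surjective y
      have e1 : o (γ • (QuotientGroup.mk g : G ⧸ L)) = β (φ γ) (β g v) := by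
        have e2 : γ • (QuotientGroup.mk g : G ⧸ L) = QuotientGroup.mk (φ γ * g) := rfl
        rw [e2, ho, map_mul]
        rfl
      show lin hol γ.1 (o (QuotientGroup.mk g)) = o (γ • (QuotientGroup.mk g : G ⧸ L))
      rw [e1, ho, hβ])
  obtain ⟨g, rfl⟩ := QuotientGroup.mk_surjective y
  have h1 : β g v = 0 := h0
  exact (β g).map_eq_zero_iff.1 h1

/-- a finite nonempty chain has a largest element -/
theorem chain_max {A : Type} [PartialOrder A] {s : Finset A} (hs : s.Nonempty)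
    (hc : IsChain (· ≤ ·) (s : Set A)) : ∃ m ∈ s, ∀ a ∈ s, a ≤ m := by
  obtain ⟨m, hm⟩ := s.exists_maximal hs
  refine ⟨m, hm.1, fun a ha => ?_⟩
  rcases eq_or_ne a m with h | h
  · exact h.le
  · rcases hc ha hm.1 h with h1 | h1
    · exact h1
    · exact hm.2 ha h1

/-- **Convex sets indexed by a partially ordered set with contractible order complex.** -/
theorem poset_points (D : AffMfd X Γ E dev hol)
    (hfree : ∀ (γ : Γ) (x : X), γ • x = x → γ = 1) {K : Subgroup Γ} (hK : K.FiniteIndex)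
    (hx : dev x₀ ∈ H) (hinvK : ∀ γ ∈ K, ∀ q ∈ H, hol γ q ∈ H)
    (hfld : ¬ Fld dev (hol.comp K.subtype) H) {A : Type} [PartialOrder A] [MulAction K A]
    (hi : ∀ (γ : K) (a b : A), a ≤ b → γ • a ≤ γ • b)
    (hC : Contr (Rl {s : Finset A | IsChain (· ≤ ·) (s : Set A)}))
    {P : A → Set E} (hne : ∀ v, (P v).Nonempty) (hcv : ∀ v, Convex ℝ (P v))
    (hmono : ∀ a b, a ≤ b → P a ⊆ P b)
    (hP : ∀ v, P v ⊆ H) (hinv : ∀ (γ : K) v, ∀ q ∈ P v, hol γ.1 q ∈ P (γ • v)) :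
    ∃ x, dev x ∈ H ∧ ∃ a, dev x ∈ P a := by
  obtain ⟨x, hxH, s, hs, h⟩ := complex_points D hfree hK hx hinvK hfld (𝒦 := _)
    (fun γ s hs => by
      have hs' : IsChain (· ≤ ·) (s : Set A) := hs
      show IsChain (· ≤ ·) ((s.map (MulAction.toPerm γ).toEmbedding : Finset A) : Set A)
      rw [Finset.coe_map]
      rintro _ ⟨a, ha, rfl⟩ _ ⟨b, hb, rfl⟩ hab
      have hne' : a ≠ b := fun h => hab (by rw [h])
      rcases hs' ha hb hne' with h1 | h1
      · exact Or.inl (hi γ a b h1)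
      · exact Or.inr (hi γ b a h1)) hC hne hP hinv
  have hsne : s.Nonempty := by
    by_contra hcon
    rw [Finset.not_nonempty_iff_eq_empty] at hcon
    rw [hcon] at h
    simp at h
  obtain ⟨m, hm, hmax⟩ := chain_max hsne hs
  refine ⟨x, hxH, m, ?_⟩
  have h1 : convexHull ℝ (⋃ v ∈ s, P v) ⊆ P m :=
    convexHull_min (iUnion₂_subset fun v hv => hmono v m (hmax v hv)) (hcv m)
  exact h1 h

end

end Pool.Agent.D0H13.CA
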