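import Pool.Agent.W689.Ch.Wt

/-!
# Equivariant maps into contractible spaces (helper13)

A group acting freely, properly discontinuously and cocompactly on the cover of an affine manifold
has an equivariant continuous map into every contractible space on which it acts, and into the
later members of every sequence of invariant sets each of which is contractible in the next one.
-/

set_option autoImplicit false

open Set Filter Topology Metric

namespace Pool.Agent.D0H13.CA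

open Pool.Agent.W689.Ch
open Pool.Agent.W689.Mk (lin hol_add hol_sub hol_inv_apply hol_apply_inv lin_inv_apply lin_mul)

/-- A sequence of nonempty invariant sets, each of which is contractible in the next one. -/
structure Tower (Γ : Type) [Group Γ] {T : Type} [TopologicalSpace T] [MulAction Γ T]
    (Y : ℕ → Set T) : Prop where
  ne : (Y 0).Nonempty
  inv : ∀ n (γ : Γ), ∀ y ∈ Y n, γ • y ∈ Y n
  cont : ∀ n (γ : Γ), ContinuousOn (fun y : T => γ • y) (Y n)
  contr : ∀ n, ∃ (h : T × ℝ → T) (z : T), ContinuousOn h (Y n ×ˢ Icc 0 1) ∧ z ∈ Y (n + 1) ∧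
    (∀ y ∈ Y n, h (y, 0) = y ∧ h (y, 1) = z) ∧ ∀ y ∈ Y n, ∀ t ∈ Icc (0 : ℝ) 1, h (y, t) ∈ Y (n + 1)

section
variable {X Γ E : Type} [TopologicalSpace X] [Group Γ] [MulAction Γ X] [NormedAddCommGroup E]
  [NormedSpace ℝ E] {dev : X → E} {hol : Γ →* (E ≃ᵃ[ℝ] E)} [T2Space X] [FiniteDimensional ℝ E]

/-- small open sets -/
theorem exists_small (D : AffMfd X Γ E dev hol) (hfree : ∀ (γ : Γ) (x : X), γ • x = x → γ = 1)
    (x : X) : ∃ U : Set X, IsOpen U ∧ x ∈ U ∧ ∀ (γ : Γ), ∀ y ∈ U, γ • y ∈ U → γ = 1 := by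
  classical
  obtain ⟨N, hN, hNc⟩ := exists_cpt_nhd D x
  have hF := D.pd N hNc
  have h1 : ∀ γ : Γ, ∃ V : Set X, IsOpen V ∧ x ∈ V ∧ (γ ≠ 1 → ∀ y ∈ V, γ • y ∉ V) := by
    intro γ
    by_cases hγ : γ = 1
    · exact ⟨univ, isOpen_univ, mem_univ _, fun h => absurd hγ h⟩
    · have hne : x ≠ γ • x := fun h => hγ (hfree γ x h.symm)
      obtain ⟨A, B, hA, hB, hxA, hxB, hAB⟩ := t2_separation hne
      refine ⟨A ∩ (fun y => γ • y) ⁻¹' B, hA.inter (hB.preimage (D.cont γ)), ⟨hxA, hxB⟩, ?_⟩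
      intro _ y hy hy2
      exact disjoint_left.1 hAB hy2.1 hy.2
  choose V hVo hxV hV using h1
  refine ⟨interior N ∩ ⋂ γ ∈ hF.toFinset, V γ,
    isOpen_interior.inter (isOpen_biInter_finset fun γ _ => hVo γ),
    ⟨mem_interior_iff_mem_nhds.2 hN, mem_iInter₂.2 fun γ _ => hxV γ⟩, ?_⟩
  intro γ y hy hy2
  by_contra hγ
  have hmem : γ ∈ hF.toFinset := by
    rw [Set.Finite.mem_toFinset]
    exact ⟨y, interior_subset hy.1, interior_subset hy2.1⟩
  exact hV γ hγ y (mem_iInter₂.1 hy.2 γ hmem) (mem_iInter₂.1 hy2.2 γ hmem)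

/-- a bump function the support of which does not meet its translates -/
structure Bump (Γ : Type) [Group Γ] [MulAction Γ X] (φ : X → ℝ) : Prop where
  cont : Continuous φ
  nn : ∀ x, 0 ≤ φ x
  cpt : HasCompactSupport φ
  small : ∃ U : Set X, IsOpen U ∧ tsupport φ ⊆ U ∧ ∀ (γ : Γ), ∀ y ∈ U, γ • y ∈ U → γ = 1

/-- finitely many bump functions are enough -/
theorem exists_bumps (D : AffMfd X Γ E dev hol)
    (hfree : ∀ (γ : Γ) (x : X), γ • x = x → γ = 1) :
    ∃ (t : Finset X) (φ : X → X → ℝ), (∀ a, Bump Γ (φ a)) ∧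
      ∀ x : X, ∃ a ∈ t, ∃ γ : Γ, 0 < φ a (γ • x) := by
  have := locComp D
  obtain ⟨C, hC, hcov⟩ := D.cc
  have h1 : ∀ a : X, ∃ φ : X → ℝ, Bump Γ φ ∧ 0 < φ a := by
    intro a
    obtain ⟨U, hU, haU, hsm⟩ := exists_small D hfree a
    obtain ⟨f, hf1, hf2, hf3, hf4⟩ := exists_continuousMap_one_of_isCompact_subset_isOpen
      (isCompact_singleton (x := a)) hU (singleton_subset_iff.2 haU)
    refine ⟨f, ⟨f.continuous, fun x => (hf4 x).1, hf2, U, hU, hf3, hsm⟩, ?_⟩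
    have : f a = 1 := hf1 (mem_singleton a)
    rw [this]
    exact one_pos
  choose φ hφ hpos using h1
  obtain ⟨t, ht⟩ := hC.elim_finite_subcover (fun a => {x | 0 < φ a x})
    (fun a => isOpen_lt continuous_const (hφ a).cont) (fun x _ => mem_iUnion.2 ⟨x, hpos x⟩)
  refine ⟨t, φ, hφ, fun x => ?_⟩
  obtain ⟨γ, k, hk, rfl⟩ := hcov x
  obtain ⟨a, hat, ha⟩ := mem_iUnion₂.1 (ht hk)
  refine ⟨a, hat, γ⁻¹, ?_⟩
  rw [inv_smul_smul]
  exact ha

/-- the sum over the group -/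
noncomputable def sm (Γ : Type) [Group Γ] [MulAction Γ X] (φ : X → ℝ) (x : X) : ℝ :=
  ∑' γ : Γ, φ (γ • x)

theorem sm_cont (D : AffMfd X Γ E dev hol) {φ : X → ℝ} (h : Bump Γ φ) : Continuous (sm Γ φ) :=
  cont_tsum (fun γ => h.cont.comp (D.cont γ)) fun x => locfin_of D h.cpt x

omit [TopologicalSpace X] [T2Space X] in
theorem sm_inv (φ : X → ℝ) (δ : Γ) (x : X) : sm Γ φ (δ • x) = sm Γ φ x := by
  show ∑' γ : Γ, φ (γ • δ • x) = ∑' γ : Γ, φ (γ • x)
  rw [← Equiv.tsum_eq (Equiv.mulRight δ) (fun γ : Γ => φ (γ • x))]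
  refine tsum_congr fun γ => ?_
  show φ (γ • δ • x) = φ ((γ * δ) • x)
  rw [smul_smul]

omit [T2Space X] in
theorem sm_nn {φ : X → ℝ} (h : Bump Γ φ) (x : X) : 0 ≤ sm Γ φ x := tsum_nonneg fun _ => h.nn _

omit [T2Space X] in
theorem sm_eq {φ : X → ℝ} {U : Set X} (hU : tsupport φ ⊆ U)
    (hs : ∀ (γ : Γ), ∀ y ∈ U, γ • y ∈ U → γ = 1) {γ₀ : Γ} {x : X} (hx : γ₀ • x ∈ U) :
    sm Γ φ x = φ (γ₀ • x) := by
  refine tsum_eq_single γ₀ fun γ hγ => ?_
  by_contra hne
  have h1 : γ • x ∈ U := hU (subset_tsupport φ hne)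
  apply hγ
  have h2 : (γ * γ₀⁻¹) • γ₀ • x ∈ U := by
    rw [smul_smul, inv_mul_cancel_right]
    exact h1
  have h3 := hs _ _ hx h2
  rw [mul_inv_eq_one] at h3
  exact h3

omit [T2Space X] in
theorem sm_zero {φ : X → ℝ} {U : Set X} (hU : tsupport φ ⊆ U) {x : X}
    (hx : ∀ γ : Γ, γ • x ∉ U) : sm Γ φ x = 0 := by
  unfold sm
  rw [← tsum_zero (α := ℝ) (β := Γ)]
  refine tsum_congr fun γ => ?_
  by_contra hne
  exact hx γ (hU (subset_tsupport φ hne))

/-- one step of the construction -/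
theorem step (D : AffMfd X Γ E dev hol) {φ : X → ℝ} (hφ : Bump Γ φ) {θ : X → ℝ}
    (hθc : Continuous θ) (hθ0 : ∀ x, 0 ≤ θ x) (hθi : ∀ (γ : Γ) x, θ (γ • x) = θ x)
    {T : Type} [TopologicalSpace T] [MulAction Γ T] {A B : Set T}
    (hBinv : ∀ (γ : Γ), ∀ y ∈ B, γ • y ∈ B)
    (hBc : ∀ (γ : Γ), ContinuousOn (fun y : T => γ • y) B)
    {h : T × ℝ → T} {z : T} (hz : z ∈ B) (hc : ContinuousOn h (A ×ˢ Icc 0 1))
    (h01 : ∀ y ∈ A, h (y, 0) = y ∧ h (y, 1) = z)
    (hB : ∀ y ∈ A, ∀ t ∈ Icc (0 : ℝ) 1, h (y, t) ∈ B) {f : X → T}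
    (hf : ∀ x, 0 < θ x → ContinuousAt f x) (hfA : ∀ x, 0 < θ x → f x ∈ A)
    (hfe : ∀ (γ : Γ) x, 0 < θ x → f (γ • x) = γ • f x) :
    ∃ f' : X → T, (∀ x, 0 < θ x + sm Γ φ x → ContinuousAt f' x) ∧
      (∀ x, 0 < θ x + sm Γ φ x → f' x ∈ B) ∧
      ∀ (γ : Γ) x, 0 < θ x + sm Γ φ x → f' (γ • x) = γ • f' x := by
  classical
  obtain ⟨U, hUo, hU, hs⟩ := hφ.small
  have hAB : A ⊆ B := fun y hy => by
    have := hB y hy 0 (left_mem_Icc.2 zero_le_one)
    rwa [(h01 y hy).1] at this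
  -- the map on `U`
  let g : X → T := fun x => if 0 < θ x then h (f x, min 1 (φ x / θ x)) else z
  have hgpos : ∀ x, 0 < θ x → g x = h (f x, min 1 (φ x / θ x)) := fun x hx => if_pos hx
  have hgneg : ∀ x, ¬ 0 < θ x → g x = z := fun x hx => if_neg hx
  have hmin : ∀ x, 0 < θ x → min 1 (φ x / θ x) ∈ Icc (0 : ℝ) 1 := fun x hx =>
    ⟨le_min zero_le_one (div_nonneg (hφ.nn x) hx.le), min_le_left _ _⟩
  have hgB : ∀ x, g x ∈ B := by
    intro x
    by_cases hx : 0 < θ x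
    · rw [hgpos x hx]
      exact hB _ (hfA x hx) _ (hmin x hx)
    · rw [hgneg x hx]
      exact hz
  have hg : ∀ x, 0 < θ x + φ x → ContinuousAt g x := by
    intro x hx
    by_cases hθx : 0 < θ x
    · have hev : ∀ᶠ y in 𝓝 x, 0 < θ y := hθc.continuousAt.eventually (lt_mem_nhds hθx)
      have h1 : ContinuousWithinAt (fun y => h (f y, min 1 (φ y / θ y))) {y | 0 < θ y} x := by
        have h2 : ContinuousWithinAt (fun y => (f y, min 1 (φ y / θ y))) {y | 0 < θ y} x := by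
          refine ContinuousWithinAt.prodMk (hf x hθx).continuousWithinAt ?_
          have h5 : ContinuousAt (fun y => φ y / θ y) x :=
            hφ.cont.continuousAt.div hθc.continuousAt hθx.ne'
          have h6 : ContinuousAt (fun y => min (1 : ℝ) (φ y / θ y)) x :=
            Filter.Tendsto.min tendsto_const_nhds h5
          exact h6.continuousWithinAt
        exact ContinuousWithinAt.comp (g := h) (f := fun y => (f y, min 1 (φ y / θ y)))
          (s := {y | 0 < θ y}) (t := A ×ˢ Icc (0 : ℝ) 1)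
          (hc (f x, min 1 (φ x / θ x)) ⟨hfA x hθx, hmin x hθx⟩) h2
          (fun y hy => ⟨hfA y hy, hmin y hy⟩)
      have h3 : ContinuousAt (fun y => h (f y, min 1 (φ y / θ y))) x := h1.continuousAt hev
      refine h3.congr ?_
      filter_upwards [hev] with y hy
      exact (hgpos y hy).symm
    · have hθx0 : θ x = 0 := le_antisymm (not_lt.1 hθx) (hθ0 x)
      have hφx : θ x < φ x := by rw [hθx0] at hx ⊢; linarith
      have hev : ∀ᶠ y in 𝓝 x, θ y < φ y := hθc.continuousAt.eventually_lt hφ.cont.continuousAt hφx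
      have h1 : ∀ᶠ y in 𝓝 x, z = g y := by
        filter_upwards [hev] with y hy
        by_cases hθy : 0 < θ y
        · rw [hgpos y hθy, min_eq_left (by rw [le_div_iff₀ hθy]; linarith)]
          exact ((h01 _ (hfA y hθy)).2).symm
        · exact (hgneg y hθy).symm
      exact continuousAt_const.congr h1
  -- the extension
  let f' : X → T := fun x => if hx : ∃ γ : Γ, γ • x ∈ U then (hx.choose)⁻¹ • g (hx.choose • x) else f x
  have hf'1 : ∀ (γ : Γ) x, γ • x ∈ U → f' x = γ⁻¹ • g (γ • x) := by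
    intro γ x hx
    have hex : ∃ γ : Γ, γ • x ∈ U := ⟨γ, hx⟩
    have h1 : f' x = (hex.choose)⁻¹ • g (hex.choose • x) := dif_pos hex
    have h2 : (hex.choose * γ⁻¹) • γ • x ∈ U := by
      rw [smul_smul, inv_mul_cancel_right]
      exact hex.choose_spec
    have h3 := hs _ _ hx h2
    rw [mul_inv_eq_one] at h3
    rw [h1, h3]
  have hf'2 : ∀ x, (∀ γ : Γ, γ • x ∉ U) → f' x = f x := by
    intro x hx
    exact dif_neg (by push Not; exact hx)
  refine ⟨f', ?_, ?_, ?_⟩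
  · intro x hx
    by_cases hex : ∃ γ : Γ, γ • x ∈ U
    · obtain ⟨γ, hγ⟩ := hex
      have hev : ∀ᶠ y in 𝓝 x, γ • y ∈ U :=
        (D.cont γ).continuousAt.eventually (hUo.mem_nhds hγ)
      have h1 : 0 < θ (γ • x) + φ (γ • x) := by
        rw [hθi, ← sm_eq hU hs hγ]
        exact hx
      have h2 : ContinuousAt (fun y => g (γ • y)) x :=
        ContinuousAt.comp (f := fun y : X => γ • y) (hg _ h1) (D.cont γ).continuousAt
      have h3 : ContinuousAt (fun y => γ⁻¹ • g (γ • y)) x := by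
        have h4 : Tendsto (fun y : T => γ⁻¹ • y) (𝓝[B] (g (γ • x))) (𝓝 (γ⁻¹ • g (γ • x))) :=
          (hBc γ⁻¹) (g (γ • x)) (hgB _)
        have h5 : Tendsto (fun y => g (γ • y)) (𝓝 x) (𝓝[B] (g (γ • x))) :=
          tendsto_nhdsWithin_iff.2 ⟨h2, Eventually.of_forall fun y => hgB _⟩
        exact h4.comp h5
      refine h3.congr ?_
      filter_upwards [hev] with y hy
      exact (hf'1 γ y hy).symm
    · push Not at hex
      have h0 := sm_zero hU hex
      rw [h0, add_zero] at hx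
      obtain ⟨N, hN, F, hF⟩ := locfin_of D hφ.cpt x
      have h1 : ∀ᶠ y in 𝓝 x, ∀ γ ∈ F, φ (γ • y) = 0 := by
        rw [Filter.eventually_all_finset]
        intro γ _
        have h2 : γ • x ∈ (tsupport φ)ᶜ := fun h3 => hex γ (hU h3)
        have h3 := (D.cont γ).continuousAt.eventually
          ((isClosed_tsupport φ).isOpen_compl.mem_nhds h2)
        filter_upwards [h3] with y hy
        by_contra hne
        exact hy (subset_tsupport φ hne)
      have hev : ∀ᶠ y in 𝓝 x, 0 < θ y := hθc.continuousAt.eventually (lt_mem_nhds hx)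
      refine (hf x hx).congr ?_
      filter_upwards [h1, hN, hev] with y hy1 hy2 hy3
      by_cases hey : ∃ γ : Γ, γ • y ∈ U
      · obtain ⟨γ, hγ⟩ := hey
        have h4 : φ (γ • y) = 0 := by
          by_cases hγF : γ ∈ F
          · exact hy1 γ hγF
          · exact hF γ hγF y hy2
        have h5 : 0 < θ (γ • y) := by rw [hθi]; exact hy3
        rw [hf'1 γ y hγ, hgpos _ h5, h4, zero_div, min_eq_right zero_le_one,
          (h01 _ (hfA _ h5)).1, hfe γ y hy3, inv_smul_smul]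
      · push Not at hey
        exact (hf'2 y hey).symm
  · intro x hx
    by_cases hex : ∃ γ : Γ, γ • x ∈ U
    · obtain ⟨γ, hγ⟩ := hex
      rw [hf'1 γ x hγ]
      exact hBinv _ _ (hgB _)
    · push Not at hex
      rw [sm_zero hU hex, add_zero] at hx
      rw [hf'2 x hex]
      exact hAB (hfA x hx)
  · intro δ x hx
    by_cases hex : ∃ γ : Γ, γ • x ∈ U
    · obtain ⟨γ, hγ⟩ := hex
      have h1 : (γ * δ⁻¹) • δ • x = γ • x := by rw [smul_smul, inv_mul_cancel_right]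
      have h2 : (γ * δ⁻¹) • δ • x ∈ U := by rw [h1]; exact hγ
      rw [hf'1 _ _ h2, hf'1 γ x hγ, h1, mul_inv_rev, inv_inv, mul_smul]
    · push Not at hex
      have hex2 : ∀ γ : Γ, γ • δ • x ∉ U := fun γ => by
        rw [smul_smul]
        exact hex _
      rw [sm_zero hU hex, add_zero] at hx
      rw [hf'2 _ hex2, hf'2 _ hex, hfe δ x hx]

/-- **Equivariant maps.** -/
theorem exists_map (D : AffMfd X Γ E dev hol) (hfree : ∀ (γ : Γ) (x : X), γ • x = x → γ = 1)
    {T : Type} [TopologicalSpace T] [MulAction Γ T] {Y : ℕ → Set T} (hY : Tower Γ Y) :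
    ∃ (f : X → T) (n : ℕ), Continuous f ∧ (∀ x, f x ∈ Y n) ∧
      ∀ (γ : Γ) x, f (γ • x) = γ • f x := by
  classical
  obtain ⟨t, φ, hφ, hcov⟩ := exists_bumps D hfree
  obtain ⟨y₀, hy₀⟩ := hY.ne
  have key : ∀ s : Finset X, ∃ (f : X → T) (n : ℕ),
      (∀ x, 0 < ∑ a ∈ s, sm Γ (φ a) x → ContinuousAt f x) ∧
      (∀ x, 0 < ∑ a ∈ s, sm Γ (φ a) x → f x ∈ Y n) ∧
      ∀ (γ : Γ) x, 0 < ∑ a ∈ s, sm Γ (φ a) x → f (γ • x) = γ • f x := by
    intro s
    induction s using Finset.induction_on with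
    | empty =>
      refine ⟨fun _ => y₀, 0, fun x hx => ?_, fun x hx => ?_, fun γ x hx => ?_⟩
      all_goals simp at hx
    | insert a s ha ih =>
      obtain ⟨f, n, h1, h2, h3⟩ := ih
      obtain ⟨h, z, hc, hz, h01, hB⟩ := hY.contr n
      obtain ⟨f', g1, g2, g3⟩ := step D (hφ a) (θ := fun x => ∑ b ∈ s, sm Γ (φ b) x)
        (continuous_finsetSum _ fun b _ => sm_cont D (hφ b))
        (fun x => Finset.sum_nonneg fun b _ => sm_nn (hφ b) x)
        (fun γ x => Finset.sum_congr rfl fun b _ => sm_inv (φ b) γ x)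
        (hY.inv (n + 1)) (hY.cont (n + 1)) hz hc h01 hB h1 h2 h3
      refine ⟨f', n + 1, fun x hx => g1 x ?_, fun x hx => g2 x ?_, fun γ x hx => g3 γ x ?_⟩
      all_goals
        rw [Finset.sum_insert ha] at hx
        linarith
  obtain ⟨f, n, h1, h2, h3⟩ := key t
  have hpos : ∀ x, 0 < ∑ a ∈ t, sm Γ (φ a) x := by
    intro x
    obtain ⟨a, hat, γ, hγ⟩ := hcov x
    obtain ⟨U, hUo, hU, hs⟩ := (hφ a).small
    have h4 : γ • x ∈ U := hU (subset_tsupport _ hγ.ne')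
    have h5 : 0 < sm Γ (φ a) x := by rw [sm_eq hU hs h4]; exact hγ
    exact lt_of_lt_of_le h5 (Finset.single_le_sum (f := fun b => sm Γ (φ b) x)
      (fun b _ => sm_nn (hφ b) x) hat)
  exact ⟨f, n, continuous_iff_continuousAt.2 fun x => h1 x (hpos x), fun x => h2 x (hpos x),
    fun γ x => h3 γ x (hpos x)⟩

end

end Pool.Agent.D0H13.CA
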